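import Pool.Agent.Lib.MP_0054e7_lc.Mg.G002

/-!
# The computable dimension two
-/

namespace Pool.Agent.Dim

open Nat.Partrec (Code)
open Nat.Partrec.Code

/-- The copies of the structure. -/
theorem hM_main (M : ℕ → ℕ → ℕ → Prop) (hM : IsComp M) (θ : ℕ → Vert)
    (hen : Enum CC Rt (Out true) θ) (hed : ∀ n x y, M n x y ↔ Edge n (θ x) (θ y)) :
    ∃ W : ℕ → ℕ → Prop, (REPred fun p : ℕ × ℕ => W p.1 p.2) ∧ ∃ E : Finset ℕ,
      ((∀ m x, W m x → θ m = (x, [])) ∧ ∀ x, Rt x → x ∉ E → ∃ m, W m x) ∨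
      ((∀ m y, W m y → ∃ x, θ m = (x, []) ∧ sg x = y) ∧ ∀ y, Rt y → y ∉ E → ∃ m, W m y) := by
  obtain ⟨c, hc⟩ := exists_codeOf hM
  have hθ : IsoS M true θ := ⟨hen, hed⟩
  obtain ⟨τ, hτ, hv, t0, p, d, l, hp⟩ := exists_tp (Encodable.encode c)
  have hrec : ∀ t, ∃ t' ≥ t, RecT τ t' := inf_rec hθ hc hτ hv hp
  obtain ⟨s, t1, h01, hP⟩ := exists_type hθ hc hτ hp hrec
  -- the isomorphism with the forest of the side
  obtain ⟨θs, hθs, htr⟩ : ∃ θs, IsoS M s θs ∧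
      ((s = true ∧ θs = θ) ∨ (s = false ∧ θs = fun m => shift sg (θ m))) := by
    cases s with
    | true => exact ⟨θ, hθ, Or.inl ⟨rfl, rfl⟩⟩
    | false =>
      refine ⟨fun m => shift sg (θ m), ⟨enum_shift sg_bij sg_out hen, ?_⟩, Or.inr ⟨rfl, rfl⟩⟩
      intro n x y
      rw [edge_shift sg_bij (hθ.rt x) (hθ.rt y)]
      exact hed n x y
  -- the exceptional roots
  have hlt : ∀ q ∈ l, TG q := by
    intro q hq
    obtain ⟨r, hr, -, -, h4⟩ := hp t0 le_rfl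
    rw [← h4] at hq
    obtain ⟨h5, h6⟩ := low_tgs (invA t0) hr hq
    exact ⟨t0, h5, h6⟩
  have hfin : {x | Rt x ∧ ∃ q ∈ l, ¬ Out s x (2 * q + 1)}.Finite := by
    have h1 : (⋃ q ∈ {q | q ∈ l}, {x | Rt x ∧ ¬ Out s x (2 * q + 1)}).Finite := by
      refine Set.Finite.biUnion (List.finite_toSet l) fun q hq => h2_out s _ ?_
      right
      refine ⟨by omega, ?_⟩
      have : (2 * q + 1) / 2 = q := by omega
      rw [this]
      exact hlt q hq
    refine h1.subset ?_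
    rintro x ⟨h2, q, h3, h4⟩
    simp only [Set.mem_iUnion]
    exact ⟨q, h3, h2, h4⟩
  have hcov : ∀ x, Rt x → x ∉ hfin.toFinset → ∃ m, ∃ t r o, t1 ≤ t ∧ N t τ = some r ∧
      (o, m) ∈ r.mu ∧ o < nn t ∧ loc s o = x := by
    intro x hx hxE
    rw [Set.Finite.mem_toFinset] at hxE
    have hl : ∀ q ∈ l, Out s x (2 * q + 1) := by
      intro q hq
      by_contra h
      exact hxE ⟨hx, q, hq, h⟩
    obtain ⟨t, ht, o, m, ⟨r, h1, h2⟩, h3⟩ := cover hp hv hrec h01 hx hl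
    exact ⟨m, t, r, o, ht, h1, h2, lt_of_lt_of_le ((invW t).k1 h1 h2).1 ((invA t).ck2 h1), h3⟩
  have hW : ∀ m x, (∃ t r o, t1 ≤ t ∧ N t τ = some r ∧ (o, m) ∈ r.mu ∧ o < nn t ∧ loc s o = x) →
      θs m = (x, []) := by
    rintro m x ⟨t, r, o, ht, h1, h2, -, rfl⟩
    exact pair_ok hθs hc hτ hp hrec h01 hP ht ⟨r, h1, h2⟩
  refine ⟨fun m x => ∃ t r o, t1 ≤ t ∧ N t τ = some r ∧ (o, m) ∈ r.mu ∧ o < nn t ∧ loc s o = x,
    re_W s τ t1, hfin.toFinset, ?_⟩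
  rcases htr with ⟨rfl, rfl⟩ | ⟨rfl, rfl⟩
  · exact Or.inl ⟨hW, hcov⟩
  · refine Or.inr ⟨fun m y h => ?_, hcov⟩
    have h1 := hW m y h
    have h2 : sg (θ m).1 = y := congrArg Prod.fst h1
    have h3 : (θ m).2 = [] := congrArg Prod.snd h1
    exact ⟨(θ m).1, Prod.ext rfl h3, h2⟩

/-- A computable structure of computable dimension two with an uncountably categorical theory. -/
theorem dimension_two :
    ∃ A : ℕ → ℕ → ℕ → Prop, IsComp A ∧ UncountablyCategorical (theory A) ∧ dim A = 2 :=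
  assemble re_CC re_Rt (re_Out true) (re_Out false) rt_infinite (h1_out true) (h2_out true)
    (h3_out true) sg sg_bij sg_out hN_sg hM_main

end Pool.Agent.Dim
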