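import Mathlib.ModelTheory.Satisfiability
import Mathlib.ModelTheory.Semantics
import Mathlib.Computability.Halting
import Mathlib.SetTheory.Cardinal.Finite

/-!
# Computable structures with binary relations, their theories and their computable dimension
-/

open FirstOrder Language

namespace Pool.Agent.Dim

/-- The relation symbols: binary symbols `R 0, R 1, ...`. -/
inductive Sym : ℕ → Type
  | R (n : ℕ) : Sym 2

/-- The language with the binary relation symbols `R 0, R 1, ...` only. -/
def Lang : Language.{0, 0} := ⟨fun _ => Empty, Sym⟩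

/-- The `Lang`-structure with universe `ℕ` given by a sequence of binary relations. -/
@[instance_reducible] def str (A : ℕ → ℕ → ℕ → Prop) : Lang.Structure ℕ where
  funMap := fun f => Empty.elim f
  RelMap := fun r v => match r with
    | Sym.R n => A n (v 0) (v 1)

/-- The complete theory of the structure given by `A`. -/
def theory (A : ℕ → ℕ → ℕ → Prop) : Lang.Theory := @Language.completeTheory Lang ℕ (str A)

/-- `A` is computable. -/
def IsComp (A : ℕ → ℕ → ℕ → Prop) : Prop :=
  ComputablePred fun p : ℕ × ℕ × ℕ => A p.1 p.2.1 p.2.2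

/-- A complete theory is uncountably categorical: it has infinite models, and any two models of the
same uncountable cardinality are isomorphic. -/
def UncountablyCategorical (T : Lang.Theory) : Prop :=
  (∃ M : Theory.ModelType.{0, 0, 0} T, Infinite M) ∧
    ∀ κ : Cardinal.{0}, Cardinal.aleph0 < κ → κ.Categorical T

/-- `A` and `B` are isomorphic. -/
def Iso (A B : ℕ → ℕ → ℕ → Prop) : Prop :=
  ∃ f : ℕ ≃ ℕ, ∀ n x y, A n x y ↔ B n (f x) (f y)

/-- `A` and `B` are computably isomorphic. -/
def CompIso (A B : ℕ → ℕ → ℕ → Prop) : Prop :=
  ∃ f : ℕ ≃ ℕ, Computable f ∧ ∀ n x y, A n x y ↔ B n (f x) (f y)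

/-- The computable structures isomorphic to `A`. -/
def Copies (A : ℕ → ℕ → ℕ → Prop) : Type := {B : ℕ → ℕ → ℕ → Prop // IsComp B ∧ Iso A B}

/-- The computable dimension of `A`: the number of computable structures isomorphic to `A`, counted
up to computable isomorphism. -/
noncomputable def dim (A : ℕ → ℕ → ℕ → Prop) : ℕ∞ :=
  ENat.card (Quot fun B B' : Copies A => CompIso B.1 B'.1)

end Pool.Agent.Dim
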